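import Pool.Agent.H51.CST.Targets

/-!
# The filtration by weight: row FIL
-/

open Polynomial

namespace Pool.Agent.H97.CST

open Pool.Agent.H51.CST

theorem pf_FIL : T_FIL := by
  intro k _ S _ _ x y z e
  have hmono : ∀ n m, n ≤ m → Fil k x y z e n ≤ Fil k x y z e m := by
    intro n m h
    apply Submodule.span_mono
    rintro w ⟨i, j, l, hi, rfl⟩
    exact ⟨i, j, l, le_trans hi h, rfl⟩
  have hgen : ∀ n i j l, i + e * j + e * l ≤ n → x ^ i * y ^ j * z ^ l ∈ Fil k x y z e n :=
    fun n i j l h => Submodule.subset_span ⟨i, j, l, h, rfl⟩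
  have hmul : ∀ n m u v, u ∈ Fil k x y z e n → v ∈ Fil k x y z e m →
      u * v ∈ Fil k x y z e (n + m) := by
    intro n m u v hu hv
    unfold Fil at hu
    induction hu using Submodule.span_induction with
    | mem w hw =>
      obtain ⟨i, j, l, h, rfl⟩ := hw
      unfold Fil at hv
      induction hv using Submodule.span_induction with
      | mem w' hw' =>
        obtain ⟨i', j', l', h', rfl⟩ := hw'
        have := hgen (n + m) (i + i') (j + j') (l + l') (by
          have e1 : i + i' + e * (j + j') + e * (l + l')
              = (i + e * j + e * l) + (i' + e * j' + e * l') := by ring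
          rw [e1]
          exact add_le_add h h')
        have e2 : x ^ i * y ^ j * z ^ l * (x ^ i' * y ^ j' * z ^ l')
            = x ^ (i + i') * y ^ (j + j') * z ^ (l + l') := by ring
        rw [e2]
        exact this
      | zero => rw [mul_zero]; exact Submodule.zero_mem _
      | add a b _ _ ha hb => rw [mul_add]; exact Submodule.add_mem _ ha hb
      | smul c a _ ha => rw [mul_smul_comm]; exact Submodule.smul_mem _ _ ha
    | zero => rw [zero_mul]; exact Submodule.zero_mem _
    | add a b _ _ ha hb => rw [add_mul]; exact Submodule.add_mem _ ha hb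
    | smul c a _ ha => rw [smul_mul_assoc]; exact Submodule.smul_mem _ _ ha
  have hone : (1 : S) ∈ Fil k x y z e 0 := by
    have := hgen 0 0 0 0 (by simp)
    simpa using this
  have hx : ∀ i, x ^ i ∈ Fil k x y z e i := by
    intro i
    have := hgen i i 0 0 (by simp)
    simpa using this
  refine ⟨hmono, hmul, ?_, ?_, ?_, ?_, ?_, ?_⟩
  · intro c
    rw [Algebra.algebraMap_eq_smul_one]
    exact Submodule.smul_mem _ _ hone
  · simpa using hx 1
  · have := hgen e 0 1 0 (by simp)
    simpa using this
  · have := hgen e 0 0 1 (by simp)
    simpa using this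
  · intro g n hn
    rw [aeval_eq_sum_range]
    apply Submodule.sum_mem
    intro i hi
    apply Submodule.smul_mem
    rw [Finset.mem_range] at hi
    exact hmono i n (by omega) (hx i)
  · intro S' _ _ f n u hu
    unfold Fil at hu
    induction hu using Submodule.span_induction with
    | mem w hw =>
      obtain ⟨i, j, l, h, rfl⟩ := hw
      rw [map_mul, map_mul, map_pow, map_pow, map_pow]
      exact Submodule.subset_span ⟨i, j, l, h, rfl⟩
    | zero => rw [map_zero]; exact Submodule.zero_mem _
    | add a b _ _ ha hb => rw [map_add]; exact Submodule.add_mem _ ha hb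
    | smul c a _ ha => rw [map_smul]; exact Submodule.smul_mem _ _ ha

end Pool.Agent.H97.CST
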